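import Mathlib

/-!
# Random closed sets, their selections and weak convergence: definitions
-/

set_option autoImplicit false

open MeasureTheory Set Filter Topology
open scoped ENNReal

namespace Pool.Agent.R972.SE0

/-- A random closed set: a closed valued map which is Effros measurable. -/
structure IsRandomClosedSet {Ω E : Type*} [MeasurableSpace Ω] [TopologicalSpace E]
    (X : Ω → Set E) : Prop where
  closed : ∀ ω, IsClosed (X ω)
  effros : ∀ G : Set E, IsOpen G → MeasurableSet {ω | (X ω ∩ G).Nonempty}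

/-- A selection of `X`: a random element `ξ` with `ξ ∈ X` almost surely. -/
structure IsSelection {Ω E : Type*} [MeasurableSpace Ω] [MeasurableSpace E] (P : Measure Ω)
    (X : Ω → Set E) (ξ : Ω → E) : Prop where
  meas : Measurable ξ
  mem : ∀ᵐ ω ∂P, ξ ω ∈ X ω

/-- Weak convergence of the random closed sets `X n` (on the probability spaces `(Ω n, P n)`) to
`X'` (on `(Ω', P')`): the vectors of distances to finitely many points converge in distribution
in `[0,∞]^k`. Here `Metric.infEDist x F` is the distance of `x` to `F`, equal to `∞` if `F` is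
empty. -/
def SetsConverge {Ω : ℕ → Type*} {Ω' E : Type*} [∀ n, MeasurableSpace (Ω n)] [MeasurableSpace Ω']
    [PseudoEMetricSpace E] (P : ∀ n, Measure (Ω n)) (X : ∀ n, Ω n → Set E)
    (P' : Measure Ω') (X' : Ω' → Set E) : Prop :=
  ∀ (k : ℕ) (x : Fin k → E) (g : BoundedContinuousFunction (Fin k → ℝ≥0∞) ℝ),
    Tendsto (fun n => ∫ ω, g (fun i => Metric.infEDist (x i) (X n ω)) ∂(P n)) atTop
      (𝓝 (∫ ω, g (fun i => Metric.infEDist (x i) (X' ω)) ∂P'))

/-- Convergence in distribution of the random elements `ξ n` to `ξ'`. -/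
def ConvergeInLaw {Ω : ℕ → Type*} {Ω' E : Type*} [∀ n, MeasurableSpace (Ω n)] [MeasurableSpace Ω']
    [TopologicalSpace E] (P : ∀ n, Measure (Ω n)) (ξ : ∀ n, Ω n → E)
    (P' : Measure Ω') (ξ' : Ω' → E) : Prop :=
  ∀ g : BoundedContinuousFunction E ℝ,
    Tendsto (fun n => ∫ ω, g (ξ n ω) ∂(P n)) atTop (𝓝 (∫ ω, g (ξ' ω) ∂P'))

end Pool.Agent.R972.SE0
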