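import Pool.Agent.R972.SE0.Krn
import Pool.Agent.R972.SE0.Fd
import Pool.Agent.R972.SE0.Defs

set_option autoImplicit false

open MeasureTheory Set Filter Topology Metric
open scoped ENNReal

namespace Pool.Agent.R972.SE0

/-- closeness in probability gives closeness of the laws -/
lemma lp_le {Ω E : Type*} [MeasurableSpace Ω] [PseudoEMetricSpace E] [MeasurableSpace E]
    [OpensMeasurableSpace E] {P : Measure Ω} {U V : Ω → E} (hU : Measurable U)
    (hV : Measurable V) {η δ : ℝ≥0∞} (hηδ : η ≤ δ)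
    (h : P {ω | η < edist (U ω) (V ω)} ≤ δ) :
    levyProkhorovEDist (P.map U) (P.map V) ≤ δ := by
  have key : ∀ (U V : Ω → E), Measurable U → Measurable V →
      P {ω | η < edist (U ω) (V ω)} ≤ δ → ∀ (ε : ℝ≥0∞) (B : Set E), δ < ε → ε < ∞ →
      MeasurableSet B → P.map U B ≤ P.map V (thickening ε.toReal B) + ε := by
    intro U V hU hV h ε B hε hεt hB
    rw [Measure.map_apply hU hB, Measure.map_apply hV isOpen_thickening.measurableSet]
    calc P (U ⁻¹' B) ≤ P (V ⁻¹' thickening ε.toReal B ∪ {ω | η < edist (U ω) (V ω)}) := by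
          refine measure_mono fun ω hω => ?_
          by_cases h1 : η < edist (U ω) (V ω)
          · right; exact h1
          · left
            rw [mem_preimage, mem_thickening_iff_exists_edist_lt]
            refine ⟨U ω, hω, ?_⟩
            rw [ENNReal.ofReal_toReal hεt.ne, edist_comm]
            exact lt_of_le_of_lt ((not_lt.1 h1).trans hηδ) hε
      _ ≤ P (V ⁻¹' thickening ε.toReal B) + P {ω | η < edist (U ω) (V ω)} := measure_union_le _ _
      _ ≤ _ := by gcongr; exact h.trans hε.le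
  refine levyProkhorovEDist_le_of_forall _ _ _ fun ε B hε hεt hB => ⟨?_, ?_⟩
  · exact key U V hU hV h ε B hε hεt hB
  · refine key V U hV hU ?_ ε B hε hεt hB
    simpa only [edist_comm] using h

/-- measurable maps are close in probability to continuous maps -/
lemma exists_cont {S E : Type*} [TopologicalSpace S] [NormalSpace S] [MeasurableSpace S]
    [BorelSpace S] [NormedAddCommGroup E] [NormedSpace ℝ E] [SecondCountableTopology E]
    [MeasurableSpace E] [BorelSpace E] {Q : Measure S} [IsProbabilityMeasure Q] [Q.WeaklyRegular]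
    {φ : S → E} (hφ : Measurable φ) {ε : ℝ≥0∞} (hε : 0 < ε) (hεt : ε ≠ ∞) :
    ∃ s : S → E, Continuous s ∧ Q {y | ε ≤ edist (s y) (φ y)} ≤ ε := by
  have hε2 : 0 < ε / 2 := ENNReal.half_pos hε.ne'
  -- truncation
  have h1 : Tendsto (fun N : ℕ => Q {y | (N:ℝ) < ‖φ y‖}) atTop (𝓝 0) := by
    have hI : (⋂ N : ℕ, {y | (N:ℝ) < ‖φ y‖}) = ∅ := by
      ext y
      simp only [mem_iInter, mem_empty_iff_false, iff_false, not_forall]
      obtain ⟨N, hN⟩ := exists_nat_ge ‖φ y‖
      exact ⟨N, not_lt.2 hN⟩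
    have := tendsto_measure_iInter_atTop (μ := Q) (s := fun N : ℕ => {y | (N:ℝ) < ‖φ y‖})
      (fun N => (measurableSet_lt measurable_const hφ.norm).nullMeasurableSet)
      (fun a b hab y (hy : (b:ℝ) < ‖φ y‖) => show (a:ℝ) < ‖φ y‖ from
        lt_of_le_of_lt (by exact_mod_cast hab) hy) ⟨0, measure_ne_top _ _⟩
    rwa [hI, measure_empty] at this
  obtain ⟨N, hN⟩ := ((tendsto_order.1 h1).2 _ hε2).exists
  set A := {y | (N:ℝ) < ‖φ y‖} with hA
  have hAm : MeasurableSet A := measurableSet_lt measurable_const hφ.norm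
  set ψ : S → E := Aᶜ.indicator φ with hψ
  have hψm : Measurable ψ := hφ.indicator hAm.compl
  have hψb : ∀ y, ‖ψ y‖ ≤ N := by
    intro y
    by_cases hy : y ∈ A
    · rw [hψ, indicator_of_notMem (by simpa using hy)]; simp
    · rw [hψ, indicator_of_mem (by simpa using hy)]
      exact not_lt.1 hy
  have hψ1 : MemLp ψ 1 Q := MemLp.of_bound hψm.aestronglyMeasurable N (Eventually.of_forall hψb)
  have hpos : ε * (ε / 2) ≠ 0 := (ENNReal.mul_pos hε.ne' hε2.ne').ne'
  obtain ⟨s, hs, -⟩ := hψ1.exists_boundedContinuous_eLpNorm_sub_le ENNReal.one_ne_top hpos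
  refine ⟨s, s.continuous, ?_⟩
  have hm : Q {y | ε ≤ ‖(ψ - (s : S → E)) y‖ₑ} ≤ ε / 2 := by
    have h2 := mul_meas_ge_le_lintegral₀ (μ := Q) (f := fun y => ‖(ψ - (s : S → E)) y‖ₑ)
      (by exact (hψm.sub s.continuous.measurable).enorm.aemeasurable) ε
    rw [eLpNorm_one_eq_lintegral_enorm] at hs
    have h3 := h2.trans hs
    exact (ENNReal.mul_le_mul_iff_right hε.ne' hεt).1 h3
  calc Q {y | ε ≤ edist (s y) (φ y)} ≤ Q (A ∪ {y | ε ≤ ‖(ψ - (s : S → E)) y‖ₑ}) := by
        refine measure_mono fun y hy => ?_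
        by_cases hyA : y ∈ A
        · left; exact hyA
        · right
          have e : ψ y = φ y := by rw [hψ, indicator_of_mem (by simpa using hyA)]
          rw [mem_ofPred_eq, Pi.sub_apply, e, ← edist_eq_enorm_sub, edist_comm]
          exact hy
    _ ≤ Q A + Q {y | ε ≤ ‖(ψ - (s : S → E)) y‖ₑ} := measure_union_le _ _
    _ ≤ ε / 2 + ε / 2 := add_le_add hN.le hm
    _ = ε := ENNReal.add_halves ε

section

variable {E : Type*} [NormedAddCommGroup E] [NormedSpace ℝ E] [CompleteSpace E]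
  [SecondCountableTopology E] [MeasurableSpace E] [BorelSpace E]

/-- the distances to a sequence of points -/
noncomputable def dists {Ω : Type*} (x : ℕ → E) (X : Ω → Set E) (ω : Ω) : ℕ → ℝ≥0∞ :=
  fun i => infEDist (x i) (X ω)

lemma dists_meas {Ω : Type*} [MeasurableSpace Ω] (x : ℕ → E) {X : Ω → Set E}
    (hX : IsRandomClosedSet X) : Measurable (dists x X) := by
  refine measurable_pi_lambda _ fun i => ?_
  refine measurable_of_Iio fun c => ?_
  have : (fun ω => dists x X ω i) ⁻¹' (Iio c) = {ω | (X ω ∩ eball (x i) c).Nonempty} := by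
    ext ω
    simp only [mem_preimage, mem_Iio, dists, infEDist_lt_iff, mem_ofPred_eq]
    constructor
    · rintro ⟨y, hy, h⟩
      exact ⟨y, hy, by rw [mem_eball, edist_comm]; exact h⟩
    · rintro ⟨y, hy, h⟩
      exact ⟨y, hy, by rw [mem_eball, edist_comm] at h; exact h⟩
  rw [this]
  exact hX.effros _ isOpen_eball

/-- the key step: approximation of a given `σ(X')`-measurable selection -/
lemma approx {Ω : ℕ → Type*} {Ω' : Type*} [∀ n, MeasurableSpace (Ω n)] [MeasurableSpace Ω']
    {P : ∀ n, Measure (Ω n)} {P' : Measure Ω'} [∀ n, IsProbabilityMeasure (P n)]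
    [IsProbabilityMeasure P'] {X : ∀ n, Ω n → Set E} {X' : Ω' → Set E}
    (hX : ∀ n, IsRandomClosedSet (X n)) (hX' : IsRandomClosedSet X')
    (hne : ∀ n ω, (X n ω).Nonempty) {x : ℕ → E} (hx : DenseRange x)
    (hconv : SetsConverge P X P' X') {φ : (ℕ → ℝ≥0∞) → E} (hφ : Measurable φ)
    (hsel : ∀ᵐ ω ∂P', φ (dists x X' ω) ∈ X' ω) {ε : ℝ≥0∞} (hε : 0 < ε) (hεt : ε ≠ ∞) :
    ∀ᶠ n in atTop, ∃ ζ : Ω n → E, Measurable ζ ∧ (∀ ω, ζ ω ∈ X n ω) ∧
      levyProkhorovEDist ((P n).map ζ) (P'.map (φ ∘ dists x X')) ≤ 8 * ε := by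
  have hY : ∀ n, Measurable (dists x (X n)) := fun n => dists_meas x (hX n)
  have hY' : Measurable (dists x X') := dists_meas x hX'
  let Q : ℕ → ProbabilityMeasure (ℕ → ℝ≥0∞) := fun n =>
    ⟨(P n).map (dists x (X n)), Measure.isProbabilityMeasure_map (hY n).aemeasurable⟩
  let Q' : ProbabilityMeasure (ℕ → ℝ≥0∞) :=
    ⟨P'.map (dists x X'), Measure.isProbabilityMeasure_map hY'.aemeasurable⟩
  have hQ : Tendsto Q atTop (𝓝 Q') := by
    refine tendsto_of_fd fun k g => ?_
    have h1 := hconv k (fun i => x i) g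
    have e1 : ∀ n, ∫ y, g (prj k y) ∂(Q n : Measure (ℕ → ℝ≥0∞)) =
        ∫ ω, g (fun i : Fin k => infEDist (x i) (X n ω)) ∂(P n) := fun n =>
      integral_map (hY n).aemeasurable (g.continuous.comp (prj_cont k)).aestronglyMeasurable
    have e2 : ∫ y, g (prj k y) ∂(Q' : Measure (ℕ → ℝ≥0∞)) =
        ∫ ω, g (fun i : Fin k => infEDist (x i) (X' ω)) ∂P' :=
      integral_map hY'.aemeasurable (g.continuous.comp (prj_cont k)).aestronglyMeasurable
    simp_rw [e1, e2]
    exact h1
  obtain ⟨s, hs, hsφ⟩ := exists_cont (Q := (Q' : Measure (ℕ → ℝ≥0∞))) hφ hε hεt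
  -- the closed set
  let C : Set (ℕ → ℝ≥0∞) := {y | ∀ j, 2 * ε ≤ y j + edist (x j) (s y)}
  have hC : IsClosed C := by
    have : C = ⋂ j, {y | 2 * ε ≤ y j + edist (x j) (s y)} := by ext; simp [C]
    rw [this]
    refine isClosed_iInter fun j => isClosed_le continuous_const ?_
    exact (continuous_apply j).add (continuous_const.edist hs)
  have hCQ : (Q' : Measure (ℕ → ℝ≥0∞)) C ≤ ε := by
    have hm2 : MeasurableSet {y | ε ≤ edist (s y) (φ y)} :=
      measurableSet_le measurable_const (hs.measurable.edist hφ)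
    have e1 : (Q' : Measure (ℕ → ℝ≥0∞)) C = P' (dists x X' ⁻¹' C) :=
      Measure.map_apply hY' hC.measurableSet
    have e2 : (Q' : Measure (ℕ → ℝ≥0∞)) {y | ε ≤ edist (s y) (φ y)} =
        P' (dists x X' ⁻¹' {y | ε ≤ edist (s y) (φ y)}) := Measure.map_apply hY' hm2
    rw [e1]
    rw [e2] at hsφ
    refine le_trans (measure_mono_ae ?_) hsφ
    filter_upwards [hsel] with ω hω hωC
    by_contra hlt
    have hlt' : edist (s (dists x X' ω)) (φ (dists x X' ω)) < ε := not_le.1 hlt
    have hop : IsOpen {z | edist (φ (dists x X' ω)) z < ε / 2} :=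
      isOpen_lt (continuous_const.edist continuous_id) continuous_const
    obtain ⟨z, hz, j, rfl⟩ := hx.inter_open_nonempty _ hop
      ⟨φ (dists x X' ω), by simpa using hε.ne'⟩
    have hz' : edist (x j) (φ (dists x X' ω)) < ε / 2 := by rw [edist_comm]; exact hz
    have h3 := hωC j
    have h4 : dists x X' ω j ≤ edist (x j) (φ (dists x X' ω)) := infEDist_le_edist_of_mem hω
    have h5 : edist (x j) (s (dists x X' ω)) ≤
        edist (x j) (φ (dists x X' ω)) + edist (φ (dists x X' ω)) (s (dists x X' ω)) :=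
      edist_triangle _ _ _
    rw [edist_comm (φ (dists x X' ω))] at h5
    have h6 : dists x X' ω j + edist (x j) (s (dists x X' ω)) < 2 * ε := by
      calc dists x X' ω j + edist (x j) (s (dists x X' ω)) ≤
          edist (x j) (φ (dists x X' ω)) + (edist (x j) (φ (dists x X' ω)) +
            edist (s (dists x X' ω)) (φ (dists x X' ω))) := add_le_add h4 h5
        _ < ε / 2 + (ε / 2 + ε) :=
            ENNReal.add_lt_add hz' (ENNReal.add_lt_add hz' hlt')
        _ = 2 * ε := by rw [← add_assoc, ENNReal.add_halves, two_mul]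
    exact absurd h3 (not_le.2 h6)
  have h2ε : ε < 2 * ε := by
    rw [two_mul]; exact ENNReal.lt_add_right hεt hε.ne'
  have hE1 : ∀ᶠ n in atTop, (Q n : Measure (ℕ → ℝ≥0∞)) C < 2 * ε := by
    refine eventually_lt_of_limsup_lt (lt_of_le_of_lt ?_ h2ε)
    exact (ProbabilityMeasure.limsup_measure_closed_le_of_tendsto hQ hC).trans hCQ
  have hE2 : ∀ᶠ n in atTop, levyProkhorovEDist ((P n).map (s ∘ dists x (X n)))
      (P'.map (s ∘ dists x X')) < ε := by
    have h1 := ProbabilityMeasure.tendsto_map_of_tendsto_of_continuous Q Q' hQ hs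
    have h2 : Tendsto (fun n => LevyProkhorov.ofMeasure ((Q n).map hs.measurable.aemeasurable))
        atTop (𝓝 (LevyProkhorov.ofMeasure (Q'.map hs.measurable.aemeasurable))) :=
      (LevyProkhorov.probabilityMeasureHomeomorph.continuous.tendsto _).comp h1
    have h3 := (EMetric.tendsto_nhds.1 h2) ε hε
    filter_upwards [h3] with n hn
    have e1 : (P n).map (s ∘ dists x (X n)) = ((P n).map (dists x (X n))).map s :=
      (Measure.map_map hs.measurable (hY n)).symm
    have e2 : P'.map (s ∘ dists x X') = (P'.map (dists x X')).map s :=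
      (Measure.map_map hs.measurable hY').symm
    rw [e1, e2]
    exact hn
  filter_upwards [hE1, hE2] with n hn1 hn2
  have hδ : 0 < 2 * ε := hε.trans h2ε
  have hδt : 2 * ε ≠ ∞ := ENNReal.mul_ne_top (by simp) hεt
  obtain ⟨ζ, hζ1, hζ2, hζ3⟩ := krn hx (hX n).closed (hne n)
    (fun i => (measurable_pi_apply i).comp (hY n)) (hs.measurable.comp (hY n)) hδ hδt
  refine ⟨ζ, hζ1, hζ2, ?_⟩
  have hL1 : levyProkhorovEDist ((P n).map ζ) ((P n).map (s ∘ dists x (X n))) ≤ 6 * ε := by
    refine lp_le hζ1 (hs.measurable.comp (hY n)) (η := 3 * (2 * ε))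
      (by rw [← mul_assoc]; norm_num) ?_
    have e1 : (Q n : Measure (ℕ → ℝ≥0∞)) C = P n (dists x (X n) ⁻¹' C) :=
      Measure.map_apply (hY n) hC.measurableSet
    rw [e1] at hn1
    refine le_trans (measure_mono ?_) (hn1.le.trans (by gcongr; norm_num))
    intro ω hω j
    by_contra hlt
    exact absurd (hζ3 ω ⟨j, not_le.1 hlt⟩) (not_le.2 hω)
  have hL2 : levyProkhorovEDist (P'.map (s ∘ dists x X')) (P'.map (φ ∘ dists x X')) ≤ ε := by
    refine lp_le (hs.measurable.comp hY') (hφ.comp hY') le_rfl ?_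
    have hm2 : MeasurableSet {y | ε ≤ edist (s y) (φ y)} :=
      measurableSet_le measurable_const (hs.measurable.edist hφ)
    have e2 : (Q' : Measure (ℕ → ℝ≥0∞)) {y | ε ≤ edist (s y) (φ y)} =
        P' (dists x X' ⁻¹' {y | ε ≤ edist (s y) (φ y)}) := Measure.map_apply hY' hm2
    rw [e2] at hsφ
    refine le_trans (measure_mono ?_) hsφ
    intro ω hω
    have hω' : ε < edist ((s ∘ dists x X') ω) ((φ ∘ dists x X') ω) := hω
    exact hω'.le
  calc levyProkhorovEDist ((P n).map ζ) (P'.map (φ ∘ dists x X')) ≤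
      levyProkhorovEDist ((P n).map ζ) ((P n).map (s ∘ dists x (X n))) +
        levyProkhorovEDist ((P n).map (s ∘ dists x (X n))) (P'.map (φ ∘ dists x X')) :=
        levyProkhorovEDist_triangle _ _ _
    _ ≤ levyProkhorovEDist ((P n).map ζ) ((P n).map (s ∘ dists x (X n))) +
        (levyProkhorovEDist ((P n).map (s ∘ dists x (X n))) (P'.map (s ∘ dists x X')) +
          levyProkhorovEDist (P'.map (s ∘ dists x X')) (P'.map (φ ∘ dists x X'))) := by
        gcongr
        exact levyProkhorovEDist_triangle _ _ _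
    _ ≤ 6 * ε + (ε + ε) := by gcongr
    _ = 8 * ε := by ring

/-- replace empty values by the whole space -/
noncomputable def fill {Ω : Type*} (X : Ω → Set E) (ω : Ω) : Set E :=
  open Classical in if (X ω).Nonempty then X ω else univ

lemma fill_ne {Ω : Type*} (X : Ω → Set E) (ω : Ω) : (fill X ω).Nonempty := by
  unfold fill
  split_ifs with h
  · exact h
  · exact univ_nonempty

lemma fill_eq {Ω : Type*} {X : Ω → Set E} {ω : Ω} (h : (X ω).Nonempty) : fill X ω = X ω := by
  unfold fill; rw [if_pos h]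

lemma fill_rcs {Ω : Type*} [MeasurableSpace Ω] {X : Ω → Set E} (hX : IsRandomClosedSet X) :
    IsRandomClosedSet (fill X) := by
  constructor
  · intro ω
    unfold fill
    split_ifs
    · exact hX.closed ω
    · exact isClosed_univ
  · intro G hG
    have : {ω | (fill X ω ∩ G).Nonempty} = {ω | (X ω ∩ G).Nonempty} ∪
        ({ω | (X ω ∩ univ).Nonempty}ᶜ ∩ {_ω | G.Nonempty}) := by
      ext ω
      simp only [mem_ofPred_eq, mem_union, mem_inter_iff, mem_compl_iff, inter_univ]
      by_cases h : (X ω).Nonempty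
      · rw [fill_eq h]; tauto
      · have h1 : ¬ (X ω ∩ G).Nonempty := fun h' => h (h'.mono inter_subset_left)
        have h2 : fill X ω = univ := by unfold fill; rw [if_neg h]
        rw [h2, univ_inter]; tauto
    rw [this]
    exact (hX.effros G hG).union ((hX.effros univ isOpen_univ).compl.inter (MeasurableSet.const _))

theorem main {Ω : ℕ → Type*} {Ω' : Type*} [∀ n, MeasurableSpace (Ω n)] [MeasurableSpace Ω']
    {P : ∀ n, Measure (Ω n)} {P' : Measure Ω'} [∀ n, IsProbabilityMeasure (P n)]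
    [IsProbabilityMeasure P'] {X : ∀ n, Ω n → Set E} {X' : Ω' → Set E}
    (hX : ∀ n, IsRandomClosedSet (X n)) (hX' : IsRandomClosedSet X')
    (hne : ∀ n, ∀ᵐ ω ∂(P n), (X n ω).Nonempty) (hne' : ∀ᵐ ω ∂P', (X' ω).Nonempty)
    (hconv : SetsConverge P X P' X') :
    ∃ (ξ : ∀ n, Ω n → E) (ξ' : Ω' → E), (∀ n, IsSelection (P n) (X n) (ξ n)) ∧
      IsSelection P' X' ξ' ∧ ConvergeInLaw P ξ P' ξ' := by
  have : Nonempty E := ⟨0⟩
  let x : ℕ → E := TopologicalSpace.denseSeq E
  have hx : DenseRange x := TopologicalSpace.denseRange_denseSeq E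
  have hZ : ∀ n, IsRandomClosedSet (fill (X n)) := fun n => fill_rcs (hX n)
  have hZ' : IsRandomClosedSet (fill X') := fill_rcs hX'
  have hconvZ : SetsConverge P (fun n => fill (X n)) P' (fill X') := by
    intro k y g
    have h1 := hconv k y g
    have e1 : ∀ n, ∫ ω, g (fun i => infEDist (y i) (fill (X n) ω)) ∂(P n) =
        ∫ ω, g (fun i => infEDist (y i) (X n ω)) ∂(P n) := by
      intro n
      refine integral_congr_ae ?_
      filter_upwards [hne n] with ω hω
      rw [fill_eq hω]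
    have e2 : ∫ ω, g (fun i => infEDist (y i) (fill X' ω)) ∂P' =
        ∫ ω, g (fun i => infEDist (y i) (X' ω)) ∂P' := by
      refine integral_congr_ae ?_
      filter_upwards [hne'] with ω hω
      rw [fill_eq hω]
    simp_rw [e1, e2]
    exact h1
  -- a `σ(X')`-measurable selection
  obtain ⟨φ, hφ, hφX⟩ : ∃ φ : (ℕ → ℝ≥0∞) → E, Measurable φ ∧
      ∀ ω, φ (dists x (fill X') ω) ∈ fill X' ω := by
    have h1 := @krn E _ _ _ _ _ Ω' (MeasurableSpace.comap (dists x (fill X')) inferInstance) x hx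
      (fill X') hZ'.closed (fill_ne X')
      (fun i => (measurable_pi_apply i).comp (comap_measurable (dists x (fill X'))))
      (fun _ => 0) (@measurable_const _ _ _ _ _) 1 one_pos ENNReal.one_ne_top
    obtain ⟨ξ, hξ, hξX, -⟩ := h1
    obtain ⟨φ, hφ, rfl⟩ := Measurable.exists_eq_measurable_comp hξ
    exact ⟨φ, hφ, hξX⟩
  have hY' : Measurable (dists x (fill X')) := dists_meas x hZ'
  set ξ' : Ω' → E := φ ∘ dists x (fill X') with hξ'
  have hξ'm : Measurable ξ' := hφ.comp hY'
  -- the best approximations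
  let A : ℕ → Set ℝ≥0∞ := fun n => {r | ∃ ζ : Ω n → E, Measurable ζ ∧
    (∀ ω, ζ ω ∈ fill (X n) ω) ∧ levyProkhorovEDist ((P n).map ζ) (P'.map ξ') = r}
  have hA : ∀ n, (A n).Nonempty := by
    intro n
    obtain ⟨ζ, h1, h2, -⟩ := krn hx (hZ n).closed (fill_ne (X n))
      (fun i => (measurable_pi_apply i).comp (dists_meas x (hZ n))) (measurable_const (a := (0:E)))
      (one_pos : (0:ℝ≥0∞) < 1) ENNReal.one_ne_top
    exact ⟨_, ζ, h1, h2, rfl⟩
  have hAt : ∀ n, sInf (A n) ≠ ∞ := by
    intro n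
    obtain ⟨r, ζ, h1, h2, h3⟩ := hA n
    have : IsProbabilityMeasure ((P n).map ζ) := Measure.isProbabilityMeasure_map h1.aemeasurable
    have : IsProbabilityMeasure (P'.map ξ') := Measure.isProbabilityMeasure_map hξ'm.aemeasurable
    refine ne_top_of_le_ne_top ?_ (sInf_le (show r ∈ A n from ⟨ζ, h1, h2, h3⟩))
    rw [← h3]; exact levyProkhorovEDist_ne_top _ _
  have hch : ∀ n : ℕ, ∃ ζ : Ω n → E, Measurable ζ ∧ (∀ ω, ζ ω ∈ fill (X n) ω) ∧
      levyProkhorovEDist ((P n).map ζ) (P'.map ξ') < sInf (A n) + (n + 1 : ℝ≥0∞)⁻¹ := by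
    intro n
    have h1 : sInf (A n) < sInf (A n) + (n + 1 : ℝ≥0∞)⁻¹ :=
      ENNReal.lt_add_right (hAt n) (ENNReal.inv_ne_zero.2 (by finiteness))
    obtain ⟨r, ⟨ζ, ha, hb, hc⟩, hr⟩ := sInf_lt_iff.1 h1
    exact ⟨ζ, ha, hb, by rw [hc]; exact hr⟩
  choose ζ hζm hζX hζL using hch
  have hlim : Tendsto (fun n => levyProkhorovEDist ((P n).map (ζ n)) (P'.map ξ')) atTop (𝓝 0) := by
    have h1 : Tendsto (fun n => sInf (A n)) atTop (𝓝 0) := by
      rw [ENNReal.tendsto_nhds_zero]
      intro ε hε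
      by_cases hεt : ε = ∞
      · exact Eventually.of_forall fun n => by rw [hεt]; exact le_top
      have h8 : 0 < ε / 8 := ENNReal.div_pos hε.ne' (by simp)
      filter_upwards [approx hZ hZ' (fun n => fill_ne (X n)) hx hconvZ hφ
        (Eventually.of_forall hφX) h8 (ENNReal.div_ne_top hεt (by simp))] with n hn
      obtain ⟨z, ha, hb, hc⟩ := hn
      refine (sInf_le (show _ ∈ A n from ⟨z, ha, hb, rfl⟩)).trans (hc.trans (le_of_eq ?_))
      exact ENNReal.mul_div_cancel (by simp) (by simp)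
    have h2 : Tendsto (fun n : ℕ => (n + 1 : ℝ≥0∞)⁻¹) atTop (𝓝 0) := by
      have := ENNReal.tendsto_inv_nat_nhds_zero.comp (tendsto_add_atTop_nat 1)
      simpa [Function.comp_def] using this
    have h3 := h1.add h2
    rw [add_zero] at h3
    exact tendsto_of_tendsto_of_tendsto_of_le_of_le tendsto_const_nhds h3 (fun n => zero_le)
      fun n => (hζL n).le
  refine ⟨ζ, ξ', fun n => ⟨hζm n, ?_⟩, ⟨hξ'm, ?_⟩, ?_⟩
  · filter_upwards [hne n] with ω hω
    have := hζX n ω
    rwa [fill_eq hω] at this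
  · filter_upwards [hne'] with ω hω
    have := hφX ω
    rwa [fill_eq hω] at this
  · let L : ℕ → ProbabilityMeasure E := fun n =>
      ⟨(P n).map (ζ n), Measure.isProbabilityMeasure_map (hζm n).aemeasurable⟩
    let L' : ProbabilityMeasure E := ⟨P'.map ξ', Measure.isProbabilityMeasure_map hξ'm.aemeasurable⟩
    have h1 : Tendsto (fun n => LevyProkhorov.ofMeasure (L n)) atTop
        (𝓝 (LevyProkhorov.ofMeasure L')) := by
      rw [tendsto_iff_edist_tendsto_0]
      exact hlim
    have h2 : Tendsto L atTop (𝓝 L') :=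
      (LevyProkhorov.continuous_toMeasure_probabilityMeasure.tendsto _).comp h1
    intro g
    have h3 := (ProbabilityMeasure.tendsto_iff_forall_integral_tendsto.1 h2) g
    have e1 : ∀ n, ∫ z, g z ∂(L n : Measure E) = ∫ ω, g (ζ n ω) ∂(P n) := fun n =>
      integral_map (hζm n).aemeasurable g.continuous.aestronglyMeasurable
    have e2 : ∫ z, g z ∂(L' : Measure E) = ∫ ω, g (ξ' ω) ∂P' :=
      integral_map hξ'm.aemeasurable g.continuous.aestronglyMeasurable
    simp_rw [e1, e2] at h3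
    exact h3

end

end Pool.Agent.R972.SE0
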